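import Pool.Agent.X71.Sn.Fin

/-!
# MP_c6faf2_co, Q1: reciprocal supernorms over the partitions of `n`

For the sum `What n` of the reciprocals `1 / N̂(λ)` of the supernorms `N̂(λ) = ∏ p_{λ_i}` over all
partitions `λ` of `n` we prove `n * What n → e ^ γ`.
-/

set_option autoImplicit false

open Filter Topology

namespace Pool.Agent.Results.MP_c6faf2_co.ReciprocalSupernorms

/-- the `k`-th prime, for `k ≥ 1` (`kthPrime 1 = 2`, `kthPrime 2 = 3`, `kthPrime 3 = 5`, ...) -/
noncomputable def kthPrime (k : ℕ) : ℕ := Nat.nth Nat.Prime (k - 1)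

/-- the supernorm of a partition: the product of the `k`-th primes over its parts `k`, counted
with multiplicity (it is `1` for the empty partition) -/
noncomputable def supernorm {n : ℕ} (l : n.Partition) : ℕ := (l.parts.map kthPrime).prod

/-- the sum of `1 / supernorm l` over all partitions `l` of `n` -/
noncomputable def What (n : ℕ) : ℝ := ∑ l : n.Partition, 1 / (supernorm l : ℝ)

/-- `n * What n` tends to `e ^ γ`, `γ` being Euler's constant. -/
theorem result : Tendsto (fun n : ℕ => (n : ℝ) * What n) atTop
    (𝓝 (Real.exp Real.eulerMascheroniConstant)) :=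
  Pool.Agent.X71.Sn.W_tendsto

end Pool.Agent.Results.MP_c6faf2_co.ReciprocalSupernorms
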